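import Pool.Agent.N520.AN.Stm

/-!
Project AN (helper520), part CPT: the set of plates is compact.
-/

set_option autoImplicit false

open Set Filter Topology

namespace Pool.Agent.N520.AN

section
variable {E : Type} [NormedAddCommGroup E] [NormedSpace ℝ E]

/-- finitely many points of the attracting space are nearly reached at one index -/
theorem cpt_near (g : ℕ → E ≃ₗ[ℝ] E) {q : ℕ} (v : Fin q → E) (hv : ∀ a, v a ∈ att g)
    {ε : ℝ} (hε : 0 < ε) :
    ∃ j : ℕ, ∃ b : Fin q → E, ∀ a, ‖b a‖ ≤ ε ∧ ‖g j (b a) - v a‖ ≤ ε := by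
  choose b hb hv' using hv
  have h1 : ∀ a, ∀ᶠ j in atTop, ‖b a j‖ ≤ ε ∧ ‖g j (b a j) - v a‖ ≤ ε := by
    intro a
    have e1 : ∀ᶠ j in atTop, ‖b a j‖ < ε := by
      have := (hb a).norm
      rw [norm_zero] at this
      exact this.eventually (gt_mem_nhds hε)
    have e2 : ∀ᶠ j in atTop, ‖g j (b a j) - v a‖ < ε := by
      have := ((hv' a).sub_const (v a)).norm
      rw [sub_self, norm_zero] at this
      exact this.eventually (gt_mem_nhds hε)
    filter_upwards [e1, e2] with j h1 h2
    exact ⟨h1.le, h2.le⟩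
  obtain ⟨j, hj⟩ := (eventually_all.2 h1).exists
  exact ⟨j, fun a => b a j, hj⟩

variable [FiniteDimensional ℝ E]

/-- the orthogonal space -/
def cpt_orth (B : E →ₗ[ℝ] E →ₗ[ℝ] ℝ) (L : Submodule ℝ E) : Submodule ℝ E :=
  (L.dualAnnihilator).comap B

omit [FiniteDimensional ℝ E] in
theorem cpt_mem_orth (B : E →ₗ[ℝ] E →ₗ[ℝ] ℝ) (L : Submodule ℝ E) (x : E) :
    x ∈ cpt_orth B L ↔ ∀ v ∈ L, B x v = 0 := by
  rw [cpt_orth, Submodule.mem_comap, Submodule.mem_dualAnnihilator]

theorem cpt_finrank_orth (B : E →ₗ[ℝ] E →ₗ[ℝ] ℝ) (hB : ∀ v, (∀ w, B v w = 0) → v = 0)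
    (L : Submodule ℝ E) :
    Module.finrank ℝ (cpt_orth B L) = Module.finrank ℝ E - Module.finrank ℝ L := by
  have hinj : Function.Injective B := by
    rw [injective_iff_map_eq_zero]
    intro x hx
    exact hB x (fun w => by rw [hx]; rfl)
  have hdim : Module.finrank ℝ E = Module.finrank ℝ (Module.Dual ℝ E) :=
    (Subspace.dual_finrank_eq).symm
  have h1 : cpt_orth B L =
      (L.dualAnnihilator).comap ((LinearMap.linearEquivOfInjective B hinj hdim) : E →ₗ[ℝ] _) := by
    ext x
    rfl
  have h2 : Module.finrank ℝ (cpt_orth B L) = Module.finrank ℝ L.dualAnnihilator := by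
    rw [h1]
    rw [Submodule.comap_equiv_eq_map_symm]
    exact LinearEquiv.finrank_map_eq (LinearMap.linearEquivOfInjective B hinj hdim).symm
      L.dualAnnihilator
  have h3 := Subspace.finrank_add_finrank_dualAnnihilator_eq L
  omega

/-- a basis with orthonormal Euclidean images -/
theorem cpt_basis (L : Submodule ℝ E) {q : ℕ} (hq : Module.finrank ℝ L = q) :
    ∃ v : Fin q → E, (∀ a, v a ∈ L) ∧ Orthonormal ℝ (fun a => toEuclidean (v a)) := by
  set L' := L.map (toEuclidean (E := E)).toLinearEquiv.toLinearMap with hL'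
  have h1 : Module.finrank ℝ L' = q := by
    rw [← hq, hL']
    exact LinearEquiv.finrank_map_eq (toEuclidean (E := E)).toLinearEquiv L
  let u := (stdOrthonormalBasis ℝ L').reindex (finCongr h1)
  have hu : ∀ a, ∃ w ∈ L, toEuclidean w = (u a : EuclideanSpace ℝ (Fin (Module.finrank ℝ E))) := by
    intro a
    exact (Submodule.mem_map).1 (u a).2
  choose v hv hv' using hu
  refine ⟨v, hv, ?_⟩
  have h2 : (fun a => toEuclidean (v a)) = L'.subtypeₗᵢ ∘ u := by
    funext a
    exact hv' a
  rw [h2]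
  exact u.orthonormal.comp_linearIsometry _

end

/-- the set of plates is compact -/
theorem t_cpt : S_CPT := by
  intro E _ _ _ B q Λ H
  have hpr : ProperSpace E := FiniteDimensional.proper_real E
  set n := Module.finrank ℝ E with hn
  let S : EuclideanSpace ℝ (Fin (Module.finrank ℝ E)) →L[ℝ] E :=
    (toEuclidean (E := E)).symm.toContinuousLinearMap
  have hTs : ∀ x : E, ‖x‖ ≤ ‖S‖ * ‖toEuclidean x‖ := by
    intro x
    have := S.le_opNorm (toEuclidean x)
    simpa [S] using this
  set C := ‖S‖ with hC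
  have hC0 : 0 ≤ C := norm_nonneg _
  have hprF : ProperSpace (EuclideanSpace ℝ (Fin (n - q)) →L[ℝ] E) :=
    FiniteDimensional.proper_real _
  -- continuity of the form
  let Bc : E →L[ℝ] E →L[ℝ] ℝ :=
    LinearMap.toContinuousLinearMap ((LinearMap.toContinuousLinearMap :
      (E →ₗ[ℝ] ℝ) ≃ₗ[ℝ] (E →L[ℝ] ℝ)).toLinearMap ∘ₗ B)
  have hBc : ∀ x y, Bc x y = B x y := fun x y => rfl
  have hBlim : ∀ (x y : ℕ → E) (x0 y0 : E), Tendsto x atTop (𝓝 x0) → Tendsto y atTop (𝓝 y0) →
      Tendsto (fun i => B (x i) (y i)) atTop (𝓝 (B x0 y0)) := by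
    intro x y x0 y0 hx hy
    have := (Bc.continuous₂.tendsto (x0, y0)).comp (hx.prodMk_nhds hy)
    exact this
  -- bounded
  have hbdd : Bornology.IsBounded (Pl B q Λ) := by
    rw [isBounded_iff_forall_norm_le]
    refine ⟨C, fun k hk => ?_⟩
    refine ContinuousLinearMap.opNorm_le_bound _ hC0 (fun f => ?_)
    have := hTs (k f)
    rwa [hk.1 f] at this
  refine Metric.isCompact_of_isClosed_isBounded ?_ hbdd
  refine IsSeqClosed.isClosed ?_
  intro k k0 hk hlim
  have hkf : ∀ f, Tendsto (fun i => k i f) atTop (𝓝 (k0 f)) := by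
    intro f
    have := ((ContinuousLinearMap.apply ℝ E f).continuous.tendsto k0).comp hlim
    exact this
  choose hnorm g hg hgd hgr using hk
  choose V hV hVo using fun i => cpt_basis (att (g i)) (hgd i)
  choose J b hb using fun i : ℕ => cpt_near (g i) (V i) (hV i) (Nat.one_div_pos_of_nat (α := ℝ) (n := i))
  -- compactness
  obtain ⟨v, -, φ, hφ, hVφ⟩ := tendsto_subseq_of_bounded
    (s := {w : Fin q → E | ∀ a, ‖toEuclidean (w a)‖ = 1}) (x := V) (by
      rw [isBounded_iff_forall_norm_le]
      refine ⟨C, fun w hw => ?_⟩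
      rw [pi_norm_le_iff_of_nonneg hC0]
      intro a
      have := hTs (w a)
      rwa [hw a, mul_one] at this) (fun i a => (hVo i).1 a)
  have hva : ∀ a, Tendsto (fun i => V (φ i) a) atTop (𝓝 (v a)) := by
    intro a
    exact (tendsto_pi_nhds.1 hVφ) a
  -- the limit is orthonormal
  have hvo : Orthonormal ℝ (fun a => toEuclidean (v a)) := by
    rw [orthonormal_iff_ite]
    intro a c
    have h1 : Tendsto (fun i => inner ℝ (toEuclidean (V (φ i) a)) (toEuclidean (V (φ i) c))) atTop
        (𝓝 (inner ℝ (toEuclidean (v a)) (toEuclidean (v c)))) :=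
      (((toEuclidean (E := E)).continuous.tendsto _).comp (hva a)).inner
        (((toEuclidean (E := E)).continuous.tendsto _).comp (hva c))
    have h2 : ∀ i, inner ℝ (toEuclidean (V (φ i) a)) (toEuclidean (V (φ i) c)) =
        if a = c then (1 : ℝ) else 0 := by
      intro i
      exact (orthonormal_iff_ite.1 (hVo (φ i))) a c
    simp only [h2] at h1
    exact (tendsto_nhds_unique h1 tendsto_const_nhds)
  have hvli : LinearIndependent ℝ v := by
    have := hvo.linearIndependent
    exact LinearIndependent.of_comp (toEuclidean (E := E)).toLinearEquiv.toLinearMap this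
  -- the new sequence
  let h : ℕ → E ≃ₗ[ℝ] E := fun i => g (φ i) (J (φ i))
  have hh : ∀ i, h i ∈ Λ := fun i => hg (φ i) (J (φ i))
  have hone : Tendsto (fun i : ℕ => (1 : ℝ) / ((φ i : ℝ) + 1)) atTop (𝓝 0) :=
    tendsto_one_div_add_atTop_nhds_zero_nat.comp hφ.tendsto_atTop
  have hvatt : ∀ a, v a ∈ att h := by
    intro a
    refine ⟨fun i => b (φ i) a, ?_, ?_⟩
    · exact squeeze_zero_norm (fun i => (hb (φ i) a).1) hone
    · have h1 : Tendsto (fun i => h i (b (φ i) a) - V (φ i) a) atTop (𝓝 0) :=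
        squeeze_zero_norm (fun i => (hb (φ i) a).2) hone
      have h2 := h1.add (hva a)
      simpa using h2
  have hspan : Submodule.span ℝ (range v) ≤ att h := by
    rw [Submodule.span_le]
    rintro _ ⟨a, rfl⟩
    exact hvatt a
  have hfs : Module.finrank ℝ (Submodule.span ℝ (range v)) = q := by
    rw [finrank_span_eq_card hvli, Fintype.card_fin]
  have hle := H.le h hh
  have hatt : Submodule.span ℝ (range v) = att h :=
    Submodule.eq_of_le_of_finrank_le hspan (by rw [hfs]; exact hle)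
  have hfa : Module.finrank ℝ (att h) = q := by rw [← hatt, hfs]
  -- the norms
  have hnorm0 : ∀ f, ‖toEuclidean (k0 f)‖ = ‖f‖ := by
    intro f
    have h1 : Tendsto (fun i => ‖toEuclidean (k i f)‖) atTop (𝓝 ‖toEuclidean (k0 f)‖) :=
      (((toEuclidean (E := E)).continuous.tendsto _).comp (hkf f)).norm
    simp only [hnorm] at h1
    exact (tendsto_nhds_unique h1 tendsto_const_nhds)
  have hk0inj : Function.Injective k0 := by
    rw [injective_iff_map_eq_zero]
    intro f hf
    have := hnorm0 f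
    rw [hf, map_zero, norm_zero] at this
    exact norm_eq_zero.1 this.symm
  refine ⟨hnorm0, h, hh, hfa, ?_⟩
  have hsub : LinearMap.range k0.toLinearMap ≤ cpt_orth B (att h) := by
    rintro _ ⟨f, rfl⟩
    rw [cpt_mem_orth, ← hatt]
    intro w hw
    have hle2 : Submodule.span ℝ (range v) ≤ LinearMap.ker (B (k0 f)) := by
      rw [Submodule.span_le]
      rintro _ ⟨a, rfl⟩
      show B (k0 f) (v a) = 0
      have h1 := hBlim (fun i => k (φ i) f) (fun i => V (φ i) a) _ _
        ((hkf f).comp hφ.tendsto_atTop) (hva a)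
      have h2 : ∀ i, B (k (φ i) f) (V (φ i) a) = 0 := by
        intro i
        exact (hgr (φ i) (k (φ i) f)).1 ⟨f, rfl⟩ _ (hV (φ i) a)
      simp only [h2] at h1
      exact (tendsto_nhds_unique h1 tendsto_const_nhds)
    exact hle2 hw
  have hdim : Module.finrank ℝ (LinearMap.range k0.toLinearMap) = n - q := by
    rw [LinearMap.finrank_range_of_inj hk0inj]
    simp [hn]
  have heq : LinearMap.range k0.toLinearMap = cpt_orth B (att h) := by
    refine Submodule.eq_of_le_of_finrank_eq hsub ?_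
    rw [hdim, cpt_finrank_orth B H.nondeg, hfa]
  intro x
  rw [← cpt_mem_orth, ← heq]
  rfl

end Pool.Agent.N520.AN
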